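import Mathlib
import Pool.Agent.H42.PinvDet

set_option autoImplicit false

namespace Pool.Agent.Results.MP_b60f31_al.PinvBound

open Matrix Finset Pool.Agent.H42.PinvDet

/-- An equation of `W_n`: either `x_i = 1`, or `x_i + x_j = x_k` with `i ≤ j`. -/
inductive Eqn (n : ℕ) : Type
  | one (i : Fin n) : Eqn n
  | add (i j k : Fin n) (hij : i ≤ j) : Eqn n

/-- The row of coefficients of an equation: `e_i` for `x_i = 1`, and `e_i + e_j - e_k` for
`x_i + x_j = x_k`. -/
def Eqn.row {n : ℕ} : Eqn n → Fin n → ℚ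
  | .one i => Pi.single i 1
  | .add i j k _ => Pi.single i 1 + Pi.single j 1 - Pi.single k 1

/-- The right hand side of an equation: `1` for `x_i = 1`, and `0` for `x_i + x_j = x_k`. -/
def Eqn.rhs {n : ℕ} : Eqn n → ℚ
  | .one _ => 1
  | .add _ _ _ _ => 0

/-- The matrix `A` of a finite family of equations. -/
def coeffMatrix {n : ℕ} {ι : Type} (S : ι → Eqn n) : Matrix ι (Fin n) ℚ :=
  Matrix.of fun e => (S e).row

/-- The right hand side `b` of a finite family of equations. -/
def rhsVector {n : ℕ} {ι : Type} (S : ι → Eqn n) : ι → ℚ := fun e => (S e).rhs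

/-- `P` is the Moore-Penrose pseudoinverse of `A`: the four Penrose conditions. -/
structure IsMoorePenroseInverse {n : ℕ} {ι : Type} [Fintype ι] (A : Matrix ι (Fin n) ℚ)
    (P : Matrix (Fin n) ι ℚ) : Prop where
  mul_mul_self : A * P * A = A
  self_mul_mul : P * A * P = P
  symm_left : (A * P)ᵀ = A * P
  symm_right : (P * A)ᵀ = P * A

section MP

variable {n : ℕ} {ι : Type} [Fintype ι] {A : Matrix ι (Fin n) ℚ}

lemma IsMoorePenroseInverse.unique {P Q : Matrix (Fin n) ι ℚ}
    (hP : IsMoorePenroseInverse A P) (hQ : IsMoorePenroseInverse A Q) : P = Q := by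
  have h1 : A * P = A * Q := by
    calc A * P = (A * P)ᵀ := hP.symm_left.symm
      _ = ((A * Q * A) * P)ᵀ := by rw [hQ.mul_mul_self]
      _ = ((A * Q) * (A * P))ᵀ := by simp only [Matrix.mul_assoc]
      _ = (A * P)ᵀ * (A * Q)ᵀ := Matrix.transpose_mul _ _
      _ = (A * P) * (A * Q) := by rw [hP.symm_left, hQ.symm_left]
      _ = (A * P * A) * Q := by simp only [Matrix.mul_assoc]
      _ = A * Q := by rw [hP.mul_mul_self]
  have h2 : P * A = Q * A := by
    calc P * A = (P * A)ᵀ := hP.symm_right.symm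
      _ = (P * (A * Q * A))ᵀ := by rw [hQ.mul_mul_self]
      _ = ((P * A) * (Q * A))ᵀ := by simp only [Matrix.mul_assoc]
      _ = (Q * A)ᵀ * (P * A)ᵀ := Matrix.transpose_mul _ _
      _ = (Q * A) * (P * A) := by rw [hP.symm_right, hQ.symm_right]
      _ = Q * (A * P * A) := by simp only [Matrix.mul_assoc]
      _ = Q * A := by rw [hP.mul_mul_self]
  calc P = P * A * P := hP.self_mul_mul.symm
    _ = Q * (A * P) := by rw [h2, Matrix.mul_assoc]
    _ = Q * A * Q := by rw [h1, Matrix.mul_assoc]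
    _ = Q := hQ.self_mul_mul

lemma exists_normal {κ μ : Type} [Fintype κ] [Fintype μ] [DecidableEq κ] [DecidableEq μ]
    (B : Matrix κ μ ℚ) : ∃ X : Matrix μ κ ℚ, Bᵀ * B * X = Bᵀ := by
  have hle : LinearMap.range (Bᵀ * B).mulVecLin ≤ LinearMap.range Bᵀ.mulVecLin := by
    rintro _ ⟨v, rfl⟩
    exact ⟨B *ᵥ v, by simp⟩
  have hrank : Module.finrank ℚ (LinearMap.range (Bᵀ * B).mulVecLin)
      = Module.finrank ℚ (LinearMap.range Bᵀ.mulVecLin) := by
    have h1 : (Bᵀ * B).rank = B.rank := Matrix.rank_transpose_mul_self B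
    have h2 : Bᵀ.rank = B.rank := Matrix.rank_transpose B
    rw [← h2] at h1
    exact h1
  have heq := Submodule.eq_of_le_of_finrank_eq hle hrank
  have hcol : ∀ j : κ, ∃ x : μ → ℚ, (Bᵀ * B) *ᵥ x = Bᵀ.col j := by
    intro j
    have : Bᵀ.col j ∈ LinearMap.range Bᵀ.mulVecLin :=
      ⟨Pi.single j 1, by simp⟩
    rw [← heq] at this
    obtain ⟨x, hx⟩ := this
    exact ⟨x, hx⟩
  choose x hx using hcol
  refine ⟨Matrix.of fun i j => x j i, ?_⟩
  ext i j
  have := congrFun (hx j) i
  simpa [Matrix.mul_apply, Matrix.mulVec, dotProduct, Matrix.col] using this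

lemma exists_isMoorePenroseInverse (A : Matrix ι (Fin n) ℚ) :
    ∃ P, IsMoorePenroseInverse A P := by
  classical
  obtain ⟨X, hX⟩ := exists_normal A
  obtain ⟨Y, hY⟩ := exists_normal Aᵀ
  rw [Matrix.transpose_transpose] at hY
  -- hX : Aᵀ * A * X = Aᵀ,  hY : A * Aᵀ * Y = A
  have hAX : (A * X)ᵀ * (A * X) = (A * X)ᵀ := by
    calc (A * X)ᵀ * (A * X) = Xᵀ * (Aᵀ * A * X) := by
          rw [Matrix.transpose_mul]; simp only [Matrix.mul_assoc]
      _ = (A * X)ᵀ := by rw [hX, Matrix.transpose_mul]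
  have hAXs : (A * X)ᵀ = A * X := by
    have h := congrArg Matrix.transpose hAX
    rw [Matrix.transpose_mul, Matrix.transpose_transpose, hAX] at h
    exact h
  have hAXA : A * X * A = A := by
    have h := congrArg Matrix.transpose hX
    rw [Matrix.mul_assoc, Matrix.transpose_mul, Matrix.transpose_transpose, hAXs] at h
    exact h
  have hYA : (Yᵀ * A) * (Yᵀ * A)ᵀ = Yᵀ * A := by
    calc (Yᵀ * A) * (Yᵀ * A)ᵀ = Yᵀ * (A * Aᵀ * Y) := by
          rw [Matrix.transpose_mul, Matrix.transpose_transpose]; simp only [Matrix.mul_assoc]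
      _ = Yᵀ * A := by rw [hY]
  have hYAs : (Yᵀ * A)ᵀ = Yᵀ * A := by
    have h := congrArg Matrix.transpose hYA
    rw [Matrix.transpose_mul, Matrix.transpose_transpose, hYA] at h
    exact h.symm
  have hAYA : A * (Yᵀ * A) = A := by
    have : Yᵀ * A = Aᵀ * Y := by
      rw [← hYAs, Matrix.transpose_mul, Matrix.transpose_transpose]
    rw [this, ← Matrix.mul_assoc, hY]
  refine ⟨Yᵀ * A * X, ?_, ?_, ?_, ?_⟩
  · calc A * (Yᵀ * A * X) * A = (A * (Yᵀ * A)) * X * A := by simp only [Matrix.mul_assoc]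
      _ = A := by rw [hAYA, hAXA]
  · calc Yᵀ * A * X * A * (Yᵀ * A * X) = Yᵀ * (A * X * A) * (Yᵀ * A * X) := by
          simp only [Matrix.mul_assoc]
      _ = Yᵀ * (A * (Yᵀ * A)) * X := by rw [hAXA]; simp only [Matrix.mul_assoc]
      _ = Yᵀ * A * X := by rw [hAYA]
  · have : A * (Yᵀ * A * X) = A * X := by
      calc A * (Yᵀ * A * X) = (A * (Yᵀ * A)) * X := by simp only [Matrix.mul_assoc]
        _ = A * X := by rw [hAYA]
    rw [this, hAXs]
  · have : Yᵀ * A * X * A = Yᵀ * A := by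
      calc Yᵀ * A * X * A = Yᵀ * (A * X * A) := by simp only [Matrix.mul_assoc]
        _ = Yᵀ * A := by rw [hAXA]
    rw [this, hYAs]

end MP

/-- Weighted Cauchy-Binet, summed over all functions. -/
lemma cauchyBinet {n : ℕ} {κ : Type} [Fintype κ] [DecidableEq κ]
    (M N : Matrix κ (Fin n) ℚ) (w : κ → ℚ) :
    (Nat.factorial n : ℚ) * (Mᵀ * (Matrix.diagonal w * N)).det
      = ∑ f : Fin n → κ, (∏ i, w (f i)) * ((M.submatrix f id).det * (N.submatrix f id).det) := by
  have h0 : ∀ f : Fin n → κ, ((Matrix.diagonal w * N).submatrix f id).det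
      = (∏ i, w (f i)) * (N.submatrix f id).det := by
    intro f
    rw [← Matrix.det_mul_column]
    congr 1
    ext i j
    simp [Matrix.diagonal_mul]
  have h1 : (Mᵀ * (Matrix.diagonal w * N)).det
      = ∑ f : Fin n → κ, (∏ i, M (f i) i) * ((∏ i, w (f i)) * (N.submatrix f id).det) := by
    rw [det_mul_expand]
    refine Finset.sum_congr rfl fun f _ => ?_
    rw [h0]
    rfl
  have h2 : ∀ σ : Equiv.Perm (Fin n), (Mᵀ * (Matrix.diagonal w * N)).det
      = ∑ f : Fin n → κ, ((Equiv.Perm.sign σ : ℤ) : ℚ) * (∏ i, M (f (σ i)) i) *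
          ((∏ i, w (f i)) * (N.submatrix f id).det) := by
    intro σ
    rw [h1]
    let E : (Fin n → κ) ≃ (Fin n → κ) := Equiv.arrowCongr σ.symm (Equiv.refl κ)
    rw [← Equiv.sum_comp E]
    refine Finset.sum_congr rfl fun f _ => ?_
    have hE : E f = f ∘ σ := by
      ext i
      simp [E, Equiv.arrowCongr]
    rw [hE]
    have e1 : ∏ i, w ((f ∘ σ) i) = ∏ i, w (f i) := by
      exact Equiv.prod_comp σ (fun i => w (f i))
    have e2 : (N.submatrix (f ∘ σ) id).det
        = ((Equiv.Perm.sign σ : ℤ) : ℚ) * (N.submatrix f id).det := by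
      rw [← Matrix.det_permute σ (N.submatrix f id)]
      rfl
    rw [e1, e2]
    simp only [Function.comp]
    ring
  have h3 : (Nat.factorial n : ℚ) * (Mᵀ * (Matrix.diagonal w * N)).det
      = ∑ _σ : Equiv.Perm (Fin n), (Mᵀ * (Matrix.diagonal w * N)).det := by
    rw [Finset.sum_const, Finset.card_univ, Fintype.card_perm, Fintype.card_fin, nsmul_eq_mul]
  rw [h3, Finset.sum_congr rfl (fun σ _ => h2 σ), Finset.sum_comm]
  refine Finset.sum_congr rfl fun f _ => ?_
  rw [← Finset.sum_mul, Matrix.det_apply' (M.submatrix f id)]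
  simp only [Matrix.submatrix_apply, id]
  ring

section bound

set_option linter.unusedSectionVars false

variable {m : ℕ} {ι : Type} [Fintype ι] [DecidableEq ι]

/-- The augmented matrix `[A; I]`. -/
def aug (S : ι → Eqn (m + 1)) : Matrix (ι ⊕ Fin (m + 1)) (Fin (m + 1)) ℚ :=
  Matrix.of fun u => Sum.elim (fun e => (S e).row) (fun j => Pi.single j 1) u

/-- The augmented right hand side `[b; 0]`. -/
def augRhs (S : ι → Eqn (m + 1)) : ι ⊕ Fin (m + 1) → ℚ :=
  Sum.elim (fun e => (S e).rhs) (fun _ => 0)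

lemma single_succAbove (k : Fin (m + 1)) (i : Fin (m + 1)) :
    ∃ a : Option (Fin m), ∀ l, (Pi.single i 1 : Fin (m + 1) → ℚ) (k.succAbove l) = ind a l := by
  obtain ⟨a, ha⟩ := exists_res k (some i)
  refine ⟨a, fun l => ?_⟩
  rw [← ha l]
  simp [ind, Pi.single_apply, eq_comm]

lemma aug_rows (S : ι → Eqn (m + 1)) (k : Fin (m + 1)) (u : ι ⊕ Fin (m + 1)) :
    (augRhs S u = 1 ∧ ∃ a : Option (Fin m), ∀ l, aug S u (k.succAbove l) = ind a l) ∨
    (augRhs S u = 0 ∧ InC (fun l => aug S u (k.succAbove l))) := by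
  rcases u with e | j
  · rcases h : S e with i | ⟨i, j, k', hij⟩
    · left
      refine ⟨by simp [augRhs, h, Eqn.rhs], ?_⟩
      obtain ⟨a, ha⟩ := single_succAbove k i
      exact ⟨a, fun l => by rw [← ha l]; simp [aug, h, Eqn.row]⟩
    · right
      refine ⟨by simp [augRhs, h, Eqn.rhs], ?_⟩
      obtain ⟨a, ha⟩ := single_succAbove k i
      obtain ⟨b, hb⟩ := single_succAbove k j
      obtain ⟨c, hc⟩ := single_succAbove k k'
      refine inC_of_two _ (a, c) (b, c) (1/2) (by norm_num) (by norm_num) ?_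
      intro l
      have : aug S (Sum.inl e) (k.succAbove l) = ind a l + ind b l - ind c l := by
        rw [← ha l, ← hb l, ← hc l]
        simp [aug, h, Eqn.row]
      rw [this]
      simp only [vert]
      ring
  · right
    refine ⟨by simp [augRhs], ?_⟩
    obtain ⟨a, ha⟩ := single_succAbove k j
    refine inC_of_two _ (a, none) (none, none) (1/2) (by norm_num) (by norm_num) ?_
    intro l
    have : aug S (Sum.inr j) (k.succAbove l) = ind a l := by
      rw [← ha l]; simp [aug]
    rw [this]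
    simp only [vert, ind_none]
    ring

lemma abs_det_updateCol_le (S : ι → Eqn (m + 1)) (k : Fin (m + 1))
    (f : Fin (m + 1) → ι ⊕ Fin (m + 1)) :
    |(((aug S).updateCol k (augRhs S)).submatrix f id).det| ≤ 2 ^ m := by
  set C : Matrix (Fin (m + 1)) (Fin (m + 1)) ℚ :=
    ((aug S).updateCol k (augRhs S)).submatrix f id with hC
  have hCk : ∀ i, C i k = augRhs S (f i) := fun i => by simp [hC]
  have hCl : ∀ i l, C i (k.succAbove l) = aug S (f i) (k.succAbove l) := fun i l => by
    simp [hC]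
  by_cases hex : ∃ r, augRhs S (f r) = 1
  · obtain ⟨r, hr⟩ := hex
    let c : Fin (m + 1) → ℚ := fun i => if i = r then 0 else C i k
    let B : Matrix (Fin (m + 1)) (Fin (m + 1)) ℚ := Matrix.of fun i l => C i l - c i * C r l
    have hcr : c r = 0 := by simp [c]
    have hdet : C.det = B.det := by
      refine Matrix.det_eq_of_forall_row_eq_smul_add_const c r hcr ?_
      intro i l
      simp [B, hcr]
    have hBcol : ∀ i, i ≠ r → B i k = 0 := by
      intro i hi
      simp [B, c, hi, hCk r, hr]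
    have hBr : B r k = 1 := by simp [B, hcr, hCk, hr]
    have hrows : ∀ i, InC ((B.submatrix r.succAbove k.succAbove) i) := by
      intro i
      have hne : r.succAbove i ≠ r := Fin.succAbove_ne r i
      have hval : ∀ l, (B.submatrix r.succAbove k.succAbove) i l
          = aug S (f (r.succAbove i)) (k.succAbove l)
            - augRhs S (f (r.succAbove i)) * aug S (f r) (k.succAbove l) := by
        intro l
        simp [B, c, hne, hCk, hCl]
      obtain ⟨ar, har⟩ : ∃ a : Option (Fin m), ∀ l, aug S (f r) (k.succAbove l) = ind a l := by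
        rcases aug_rows S k (f r) with h | h
        · exact h.2
        · rw [hr] at h; exact absurd h.1 one_ne_zero
      rcases aug_rows S k (f (r.succAbove i)) with ⟨h1, a, ha⟩ | ⟨h1, h2⟩
      · refine inC_of_two _ (a, ar) (none, ar) (1/2) (by norm_num) (by norm_num) ?_
        intro l
        rw [hval l, h1, ha, har]
        simp only [vert, ind_none]
        ring
      · have : (B.submatrix r.succAbove k.succAbove) i
            = fun l => aug S (f (r.succAbove i)) (k.succAbove l) := by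
          ext l
          rw [hval l, h1]
          ring
        rw [this]
        exact h2
    rw [hdet, abs_det_single_col B r k hBcol, hBr]
    have := abs_det_le_two_pow _ hrows
    rw [abs_one, one_mul]
    exact this
  · push Not at hex
    have h0 : ∀ i, augRhs S (f i) = 0 := by
      intro i
      rcases aug_rows S k (f i) with h | h
      · exact absurd h.1 (hex i)
      · exact h.1
    have : C.det = 0 := by
      apply Matrix.det_eq_zero_of_column_eq_zero k
      intro i
      rw [hCk, h0]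
    rw [this]
    simp

lemma aug_int (S : ι → Eqn (m + 1)) (f : Fin (m + 1) → ι ⊕ Fin (m + 1)) :
    ∃ z : ℤ, ((aug S).submatrix f id).det = z := by
  have hent : ∀ u j, ∃ z : ℤ, aug S u j = z := by
    intro u j
    have hs : ∀ i : Fin (m + 1), ∃ z : ℤ, (Pi.single i 1 : Fin (m + 1) → ℚ) j = z := by
      intro i
      by_cases h : j = i
      · exact ⟨1, by simp [h]⟩
      · exact ⟨0, by simp [h]⟩
    rcases u with e | i
    · rcases h : S e with i | ⟨i, i', k', hij⟩
      · obtain ⟨z, hz⟩ := hs i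
        exact ⟨z, by rw [← hz]; simp [aug, h, Eqn.row]⟩
      · obtain ⟨z, hz⟩ := hs i
        obtain ⟨z', hz'⟩ := hs i'
        obtain ⟨z'', hz''⟩ := hs k'
        exact ⟨z + z' - z'', by push_cast; rw [← hz, ← hz', ← hz'']; simp [aug, h, Eqn.row]⟩
    · obtain ⟨z, hz⟩ := hs i
      exact ⟨z, by rw [← hz]; simp [aug]⟩
  choose Z hZ using hent
  let ZM : Matrix (Fin (m + 1)) (Fin (m + 1)) ℤ := Matrix.of fun i j => Z (f i) j
  refine ⟨ZM.det, ?_⟩
  have := (Int.castRingHom ℚ).map_det ZM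
  rw [eq_intCast] at this
  rw [this]
  congr 1
  ext i j
  simp [ZM, hZ]

/-- The regularised solution is bounded. -/
lemma regularised_bound (S : ι → Eqn (m + 1)) (lam : ℚ) (hlam : 0 < lam)
    (x : Fin (m + 1) → ℚ)
    (hx : ((coeffMatrix S)ᵀ * coeffMatrix S + lam • (1 : Matrix (Fin (m + 1)) (Fin (m + 1)) ℚ))
      *ᵥ x = (coeffMatrix S)ᵀ *ᵥ rhsVector S) (k : Fin (m + 1)) : |x k| ≤ 2 ^ m := by
  set w : ι ⊕ Fin (m + 1) → ℚ := Sum.elim (fun _ => 1) (fun _ => lam) with hw
  set G : Matrix (Fin (m + 1)) (Fin (m + 1)) ℚ := (aug S)ᵀ * (Matrix.diagonal w * aug S) with hG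
  have hGeq : G = (coeffMatrix S)ᵀ * coeffMatrix S
      + lam • (1 : Matrix (Fin (m + 1)) (Fin (m + 1)) ℚ) := by
    ext i j
    rw [hG, Matrix.mul_apply, Fintype.sum_sum_type, Matrix.add_apply, Matrix.mul_apply]
    congr 1
    · refine Finset.sum_congr rfl fun e _ => ?_
      rw [Matrix.diagonal_mul]
      simp [hw, aug, coeffMatrix]
    · have : ∀ a : Fin (m + 1), (aug S)ᵀ i (Sum.inr a) * (Matrix.diagonal w * aug S) (Sum.inr a) j
          = if a = i then lam * (if i = j then 1 else 0) else 0 := by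
        intro a
        rw [Matrix.diagonal_mul]
        by_cases hai : a = i
        · subst hai
          simp [hw, aug, Pi.single_apply, eq_comm]
        · simp [hw, aug, Pi.single_apply, hai, Ne.symm hai]
      rw [Finset.sum_congr rfl (fun a _ => this a)]
      simp [Matrix.one_apply]
  have hrhs : (coeffMatrix S)ᵀ *ᵥ rhsVector S
      = ((aug S)ᵀ * Matrix.diagonal w) *ᵥ augRhs S := by
    ext i
    simp [Matrix.mulVec, dotProduct, Matrix.mul_diagonal, hw, aug, augRhs, coeffMatrix,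
      rhsVector]
  rw [← hGeq, hrhs] at hx
  -- Cramer
  have hcram : G.det * x k
      = ((aug S)ᵀ * (Matrix.diagonal w * (aug S).updateCol k (augRhs S))).det := by
    have h1 : G.cramer (G *ᵥ x) = G.det • x := by
      rw [Matrix.cramer_eq_adjugate_mulVec, Matrix.mulVec_mulVec, Matrix.adjugate_mul,
        Matrix.smul_mulVec, Matrix.one_mulVec]
    have h2 := congrFun h1 k
    rw [Matrix.cramer_apply, hx] at h2
    rw [Pi.smul_apply, smul_eq_mul] at h2
    rw [← h2]
    congr 1
    ext i j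
    by_cases hj : j = k
    · subst hj
      rw [Matrix.updateCol_self, ← Matrix.mul_assoc]
      simp [Matrix.mulVec, dotProduct, Matrix.mul_apply (M := (aug S)ᵀ * Matrix.diagonal w)]
    · rw [Matrix.updateCol_ne hj, hG, ← Matrix.mul_assoc, ← Matrix.mul_assoc,
        Matrix.mul_apply, Matrix.mul_apply]
      refine Finset.sum_congr rfl fun u _ => ?_
      rw [Matrix.updateCol_ne hj]
  have hCB1 := cauchyBinet (aug S) (aug S) w
  have hCB2 := cauchyBinet (aug S) ((aug S).updateCol k (augRhs S)) w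
  rw [← hcram] at hCB2
  rw [← hG] at hCB1
  have hwpos : ∀ f : Fin (m + 1) → ι ⊕ Fin (m + 1), 0 < ∏ i, w (f i) := by
    intro f
    refine Finset.prod_pos fun i _ => ?_
    rcases f i with e | j <;> simp [hw, hlam]
  have hle : |(Nat.factorial (m + 1) : ℚ) * (G.det * x k)|
      ≤ 2 ^ m * ((Nat.factorial (m + 1) : ℚ) * G.det) := by
    rw [hCB2, hCB1, Finset.mul_sum]
    refine (Finset.abs_sum_le_sum_abs _ _).trans (Finset.sum_le_sum fun f _ => ?_)
    rw [abs_mul, abs_of_pos (hwpos f), abs_mul]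
    obtain ⟨z, hz⟩ := aug_int S f
    rw [hz]
    have h1 := abs_det_updateCol_le S k f
    have h2 : |(z : ℚ)| ≤ (z : ℚ) * z := by
      have : |z| ≤ z * z := by
        rcases eq_or_ne z 0 with h | h
        · simp [h]
        · have : 1 ≤ |z| := Int.one_le_abs h
          calc |z| = |z| * 1 := by ring
            _ ≤ |z| * |z| := mul_le_mul_of_nonneg_left this (abs_nonneg z)
            _ = z * z := abs_mul_abs_self z
      exact_mod_cast this
    calc (∏ i, w (f i)) * (|(z : ℚ)| *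
          |(((aug S).updateCol k (augRhs S)).submatrix f id).det|)
        ≤ (∏ i, w (f i)) * (((z : ℚ) * z) * 2 ^ m) := by
          apply mul_le_mul_of_nonneg_left _ (hwpos f).le
          exact mul_le_mul h2 h1 (abs_nonneg _) (mul_self_nonneg _)
      _ = 2 ^ m * ((∏ i, w (f i)) * ((z : ℚ) * z)) := by ring
  have hdetpos : 0 < (Nat.factorial (m + 1) : ℚ) * G.det := by
    rw [hCB1]
    refine Finset.sum_pos' (fun f _ => mul_nonneg (hwpos f).le (mul_self_nonneg _)) ?_
    refine ⟨fun i => Sum.inr i, Finset.mem_univ _, ?_⟩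
    have : (aug S).submatrix (fun i => Sum.inr i) id = 1 := by
      ext i j
      simp [aug, Matrix.one_apply, Pi.single_apply, eq_comm]
    rw [this, Matrix.det_one, mul_one, mul_one]
    exact hwpos _
  have h3 : |(Nat.factorial (m + 1) : ℚ) * (G.det * x k)|
      = ((Nat.factorial (m + 1) : ℚ) * G.det) * |x k| := by
    rw [← mul_assoc, abs_mul, abs_of_pos hdetpos]
  rw [h3, mul_comm] at hle
  exact le_of_mul_le_mul_right hle hdetpos

end bound

/-- The limiting argument: the regularised solutions converge to the pseudoinverse solution. -/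
lemma pinv_bound {m : ℕ} {ι : Type} [Fintype ι] (S : ι → Eqn (m + 1))
    (P : Matrix (Fin (m + 1)) ι ℚ) (hP : IsMoorePenroseInverse (coeffMatrix S) P)
    (k : Fin (m + 1)) : |(P *ᵥ rhsVector S) k| ≤ 2 ^ m := by
  classical
  set A := coeffMatrix S with hA
  set b := rhsVector S with hb
  set x0 : Fin (m + 1) → ℚ := P *ᵥ b with hx0
  -- normal equations
  have hAAP : Aᵀ * A * P = Aᵀ := by
    have h := congrArg Matrix.transpose hP.mul_mul_self
    rw [Matrix.transpose_mul, hP.symm_left] at h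
    rw [Matrix.mul_assoc, h]
  have hnormal : (Aᵀ * A) *ᵥ x0 = Aᵀ *ᵥ b := by
    rw [hx0, Matrix.mulVec_mulVec, hAAP]
  set w : ι → ℚ := Pᵀ *ᵥ (P *ᵥ b) with hw
  have hx0w : x0 = Aᵀ *ᵥ w := by
    have h1 : P *ᵥ b = (P * A * P) *ᵥ b := by rw [hP.self_mul_mul]
    rw [hx0, h1, hw, ← Matrix.mulVec_mulVec, ← hP.symm_right, Matrix.transpose_mul,
      ← Matrix.mulVec_mulVec]
  by_contra hcon
  push Not at hcon
  set δ : ℚ := |x0 k| - 2 ^ m with hδ
  have hδpos : 0 < δ := by rw [hδ]; linarith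
  set W : ℚ := w ⬝ᵥ w with hW
  have hWnn : 0 ≤ W := by
    rw [hW]
    exact Finset.sum_nonneg fun i _ => mul_self_nonneg (w i)
  -- choose lam
  set lam : ℚ := δ ^ 2 / (W + 1) with hlamdef
  have hlam : 0 < lam := by positivity
  set G : Matrix (Fin (m + 1)) (Fin (m + 1)) ℚ :=
    Aᵀ * A + lam • (1 : Matrix (Fin (m + 1)) (Fin (m + 1)) ℚ) with hG
  have hGv : ∀ v : Fin (m + 1) → ℚ, G *ᵥ v = Aᵀ *ᵥ (A *ᵥ v) + lam • v := by
    intro v
    rw [hG, Matrix.add_mulVec, Matrix.smul_mulVec, Matrix.one_mulVec, Matrix.mulVec_mulVec]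
  have hquad : ∀ v : Fin (m + 1) → ℚ, v ⬝ᵥ (G *ᵥ v) = (A *ᵥ v) ⬝ᵥ (A *ᵥ v) + lam * (v ⬝ᵥ v) := by
    intro v
    rw [hGv, dotProduct_add, dotProduct_smul, smul_eq_mul]
    congr 1
    rw [Matrix.dotProduct_mulVec, Matrix.vecMul_transpose]
  have hGdet : G.det ≠ 0 := by
    intro h0
    obtain ⟨v, hv0, hv⟩ := Matrix.exists_mulVec_eq_zero_iff.mpr h0
    have h1 := hquad v
    rw [hv, dotProduct_zero] at h1
    have h2 : 0 ≤ (A *ᵥ v) ⬝ᵥ (A *ᵥ v) := Finset.sum_nonneg fun i _ => mul_self_nonneg _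
    have h3 : 0 < v ⬝ᵥ v := by
      have h4 : 0 ≤ v ⬝ᵥ v := Finset.sum_nonneg fun i _ => mul_self_nonneg _
      refine lt_of_le_of_ne h4 (fun h => hv0 ?_)
      exact dotProduct_self_eq_zero.mp h.symm
    have : 0 < lam * (v ⬝ᵥ v) := mul_pos hlam h3
    linarith
  set x : Fin (m + 1) → ℚ := G⁻¹ *ᵥ (Aᵀ *ᵥ b) with hx
  have hGx : G *ᵥ x = Aᵀ *ᵥ b := by
    rw [hx, Matrix.mulVec_mulVec, Matrix.mul_nonsing_inv _ (isUnit_iff_ne_zero.mpr hGdet),
      Matrix.one_mulVec]
  have hxk := regularised_bound S lam hlam x hGx k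
  set d : Fin (m + 1) → ℚ := x0 - x with hd
  have hGd : G *ᵥ d = lam • x0 := by
    rw [hd, Matrix.mulVec_sub, hGx, hGv, Matrix.mulVec_mulVec, hnormal]
    simp
  have hq := hquad d
  rw [hGd, dotProduct_smul, smul_eq_mul, hx0w, Matrix.dotProduct_mulVec,
    Matrix.vecMul_transpose] at hq
  -- lam * (A d . w) = |A d|^2 + lam |d|^2
  set y : ι → ℚ := A *ᵥ d with hy
  have hAM : lam * (y ⬝ᵥ w) ≤ y ⬝ᵥ y + lam ^ 2 / 4 * W := by
    rw [hW]
    simp only [dotProduct, Finset.mul_sum]
    rw [← Finset.sum_add_distrib]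
    refine Finset.sum_le_sum fun i _ => ?_
    nlinarith [sq_nonneg (y i - lam / 2 * w i)]
  have hdd : d ⬝ᵥ d ≤ lam / 4 * W := by
    have : lam * (d ⬝ᵥ d) ≤ lam * (lam / 4 * W) := by nlinarith
    exact le_of_mul_le_mul_left this hlam
  have hdk : d k * d k ≤ d ⬝ᵥ d :=
    Finset.single_le_sum (f := fun i => d i * d i) (fun i _ => mul_self_nonneg _)
      (Finset.mem_univ k)
  have hδd : δ ≤ |d k| := by
    have : |x0 k| ≤ |x k| + |d k| := by
      have : x0 k = x k + d k := by simp [hd]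
      rw [this]
      exact abs_add_le _ _
    rw [hδ]
    linarith
  have h1 : δ ^ 2 ≤ d k * d k := by
    have : |d k| * |d k| = d k * d k := abs_mul_abs_self _
    nlinarith [abs_nonneg (d k)]
  have h2 : lam / 4 * W < δ ^ 2 := by
    have hW1 : 0 < W + 1 := by linarith
    have : lam * (W + 1) = δ ^ 2 := by rw [hlamdef]; field_simp
    nlinarith
  linarith

/-- For every `n ≥ 1` and every finite family `S` of equations of `W_n` with matrix `A` and right
hand side `b`, the Moore-Penrose pseudoinverse `P` of `A` exists, is unique, and every coordinate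
of `P b` lies in `[-2 ^ (n - 1), 2 ^ (n - 1)]`. -/
theorem result (n : ℕ) (hn : 1 ≤ n) (ι : Type) [Fintype ι] (S : ι → Eqn n) :
    ∃ P : Matrix (Fin n) ι ℚ,
      IsMoorePenroseInverse (coeffMatrix S) P ∧
      (∀ Q : Matrix (Fin n) ι ℚ, IsMoorePenroseInverse (coeffMatrix S) Q → Q = P) ∧
      ∀ k : Fin n, -2 ^ (n - 1) ≤ (P *ᵥ rhsVector S) k ∧ (P *ᵥ rhsVector S) k ≤ 2 ^ (n - 1) := by
  obtain ⟨m, rfl⟩ : ∃ m, n = m + 1 := ⟨n - 1, by omega⟩
  obtain ⟨P, hP⟩ := exists_isMoorePenroseInverse (coeffMatrix S)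
  refine ⟨P, hP, fun Q hQ => hQ.unique hP, fun k => ?_⟩
  exact abs_le.mp (pinv_bound S P hP k)

end Pool.Agent.Results.MP_b60f31_al.PinvBound
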